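import Pool.Agent.H85.KS2.Targets

/-! # MP_ff41bc_an: module LG (logarithms are small) -/

set_option autoImplicit false
open Pool.Agent.H98.KS Pool.Agent.H85.KS2
namespace Pool.Agent.H48.KS2

theorem ks2_LG : T_LG := by
  intro n ε hε
  obtain ⟨δ, hδ⟩ : ∃ δ : ℝ, δ = ε / (n + 1) := ⟨_, rfl⟩
  have hδ0 : 0 < δ := by rw [hδ]; positivity
  obtain ⟨A, hA⟩ : ∃ A : ℝ, A = 3 + 2 * ((17 : ℝ) ^ δ / δ) := ⟨_, rfl⟩
  have hA0 : 0 < A := by rw [hA]; positivity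
  refine ⟨A ^ n, pow_pos hA0 n, fun L hL => ?_⟩
  have hL1 : (1 : ℝ) ≤ L := by exact_mod_cast hL
  have h1 : LG L ≤ A * (L : ℝ) ^ δ := by
    have h2 : Real.log (16 * (L : ℝ) + 1) ≤ Real.log (17 * L) :=
      Real.log_le_log (by positivity) (by linarith)
    have h3 : Real.log (17 * (L : ℝ)) ≤ (17 * (L : ℝ)) ^ δ / δ :=
      Real.log_le_rpow_div (by positivity) hδ0
    rw [Real.mul_rpow (by norm_num) (by positivity)] at h3
    have h4 : (1 : ℝ) ≤ (L : ℝ) ^ δ := Real.one_le_rpow hL1 hδ0.le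
    unfold LG
    rw [hA]
    have h5 : (3 + 2 * ((17 : ℝ) ^ δ / δ)) * (L : ℝ) ^ δ =
        3 * (L : ℝ) ^ δ + 2 * ((17 : ℝ) ^ δ * (L : ℝ) ^ δ / δ) := by ring
    rw [h5]
    linarith
  have h0 : 0 ≤ LG L := by
    unfold LG
    have : 0 ≤ Real.log (16 * (L : ℝ) + 1) := Real.log_nonneg (by linarith)
    linarith
  calc LG L ^ n ≤ (A * (L : ℝ) ^ δ) ^ n := pow_le_pow_left₀ h0 h1 n
    _ = A ^ n * (L : ℝ) ^ (δ * n) := by
        rw [mul_pow, Real.rpow_mul_natCast (by positivity)]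
    _ ≤ A ^ n * (L : ℝ) ^ ε := by
        refine mul_le_mul_of_nonneg_left ?_ (pow_pos hA0 n).le
        refine Real.rpow_le_rpow_of_exponent_le hL1 ?_
        rw [hδ, div_mul_eq_mul_div, div_le_iff₀ (by positivity)]
        nlinarith

end Pool.Agent.H48.KS2
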