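import Pool.Agent.H85.KS2.Targets

/-! # MP_ff41bc_an: module PI (III.2) -/

set_option autoImplicit false
open Pool.Agent.H98.KS Pool.Agent.H85.KS2
namespace Pool.Agent.H48.KS2

theorem card_HH (L : ℕ) : (HH L).card = 16 * L := by
  unfold HH JJ
  rw [Finset.card_erase_of_mem (by simp), Int.card_Icc]
  omega

theorem ZV_cont (hV2 : T_V2) (k L v : ℕ) (hL : 1 ≤ L) : Continuous fun θ => ZV k L v θ := by
  unfold ZV
  exact continuous_finsetSum _ fun h _ => ((hV2 k L h hL).2).pow v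

theorem ZV_nonneg (hV2 : T_V2) (k L v : ℕ) (hL : 1 ≤ L) (θ : ℝ) : 0 ≤ ZV k L v θ := by
  unfold ZV
  exact Finset.sum_nonneg fun h _ => pow_nonneg ((hV2 k L h hL).1 θ).1 v

theorem ks2_PI (hV2 : T_V2) : T_PI := by
  intro k s hks hZ ε hε
  obtain ⟨C, hC, hZC⟩ := hZ ε hε
  obtain ⟨A, hA⟩ : ∃ A : ℝ, A = 3 ^ (4 * s + 4) * 2 ^ (2 * s + 1) := ⟨_, rfl⟩
  have hA0 : 0 < A := by rw [hA]; positivity
  refine ⟨A + A * 16 ^ (2 * s) * C, by positivity, fun X hX => ?_⟩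
  have hX1 : (1 : ℝ) ≤ X := by exact_mod_cast hX
  have hpt : ∀ θ : ℝ, PP k X θ ^ (4 * s + 4) ≤
      A * (X : ℝ) ^ (2 * s + 2) + A * (16 * (X : ℝ)) ^ (2 * s) * ZV k X (s + 1) θ ^ 2 := by
    intro θ
    obtain ⟨Z, hZd⟩ : ∃ Z : ℝ, Z = ZV k X 1 θ := ⟨_, rfl⟩
    have hZ0 : 0 ≤ Z := by rw [hZd]; exact ZV_nonneg hV2 k X 1 hX θ
    have hPP : PP k X θ ≤ 3 * Real.sqrt (X + Z) := by
      unfold PP
      rw [← hZd]
      have h1 : 1 ≤ Real.sqrt (X + Z) := Real.one_le_sqrt.2 (by linarith)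
      linarith
    have hPP0 : 0 ≤ PP k X θ := by
      unfold PP
      positivity
    have h1 : PP k X θ ^ (4 * s + 4) ≤ 3 ^ (4 * s + 4) * (X + Z) ^ (2 * s + 2) := by
      calc PP k X θ ^ (4 * s + 4) ≤ (3 * Real.sqrt (X + Z)) ^ (4 * s + 4) :=
            pow_le_pow_left₀ hPP0 hPP _
        _ = 3 ^ (4 * s + 4) * (X + Z) ^ (2 * s + 2) := by
            rw [mul_pow]
            congr 1
            rw [show 4 * s + 4 = 2 * (2 * s + 2) by ring, pow_mul,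
              Real.sq_sqrt (by positivity)]
    have h2 : ((X : ℝ) + Z) ^ (2 * s + 2) ≤
        2 ^ (2 * s + 1) * ((X : ℝ) ^ (2 * s + 2) + Z ^ (2 * s + 2)) := by
      have h3 := add_pow_le (by positivity : (0 : ℝ) ≤ X) hZ0 (2 * s + 2)
      exact h3
    have h3 : Z ^ (s + 1) ≤ (16 * (X : ℝ)) ^ s * ZV k X (s + 1) θ := by
      have h4 := pow_sum_div_card_le_sum_pow (s := HH X) (f := fun h => VV k X θ h)
        (fun h _ => ((hV2 k X h hX).1 θ).1) s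
      have h5 : ((HH X).card : ℝ) = 16 * X := by
        rw [card_HH]
        push_cast
        ring
      rw [h5, div_le_iff₀ (by positivity)] at h4
      have h6 : Z = ∑ h ∈ HH X, VV k X θ h := by
        rw [hZd]
        unfold ZV
        simp
      rw [h6]
      unfold ZV
      rw [mul_comm]
      exact h4
    have h4 : Z ^ (2 * s + 2) ≤ (16 * (X : ℝ)) ^ (2 * s) * ZV k X (s + 1) θ ^ 2 := by
      have h5 := pow_le_pow_left₀ (pow_nonneg hZ0 _) h3 2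
      rw [← pow_mul, mul_pow, ← pow_mul] at h5
      rw [show 2 * s + 2 = (s + 1) * 2 by ring, show 2 * s = s * 2 by ring]
      exact h5
    calc PP k X θ ^ (4 * s + 4) ≤ 3 ^ (4 * s + 4) * (X + Z) ^ (2 * s + 2) := h1
      _ ≤ 3 ^ (4 * s + 4) * (2 ^ (2 * s + 1) * ((X : ℝ) ^ (2 * s + 2) + Z ^ (2 * s + 2))) :=
          mul_le_mul_of_nonneg_left h2 (by positivity)
      _ = A * (X : ℝ) ^ (2 * s + 2) + A * Z ^ (2 * s + 2) := by
          rw [hA]
          ring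
      _ ≤ A * (X : ℝ) ^ (2 * s + 2) +
          A * ((16 * (X : ℝ)) ^ (2 * s) * ZV k X (s + 1) θ ^ 2) := by
          have := mul_le_mul_of_nonneg_left h4 hA0.le
          linarith
      _ = _ := by ring
  have hcZ := ZV_cont hV2 k X (s + 1) hX
  have hcP : Continuous fun θ => PP k X θ := by
    unfold PP
    exact continuous_const.add (continuous_const.mul
      ((continuous_const.add (ZV_cont hV2 k X 1 hX)).sqrt))
  have hint : ∫ θ in (0 : ℝ)..1, PP k X θ ^ (4 * s + 4) ≤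
      ∫ θ in (0 : ℝ)..1, (A * (X : ℝ) ^ (2 * s + 2) +
        A * (16 * (X : ℝ)) ^ (2 * s) * ZV k X (s + 1) θ ^ 2) := by
    refine intervalIntegral.integral_mono_on (by norm_num) ?_ ?_ fun θ _ => hpt θ
    · exact (hcP.pow _).intervalIntegrable _ _
    · exact (continuous_const.add (continuous_const.mul (hcZ.pow 2))).intervalIntegrable _ _
  have hcalc : ∫ θ in (0 : ℝ)..1, (A * (X : ℝ) ^ (2 * s + 2) +
        A * (16 * (X : ℝ)) ^ (2 * s) * ZV k X (s + 1) θ ^ 2) =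
      A * (X : ℝ) ^ (2 * s + 2) + A * (16 * (X : ℝ)) ^ (2 * s) *
        ∫ θ in (0 : ℝ)..1, ZV k X (s + 1) θ ^ 2 := by
    have hi : IntervalIntegrable (fun θ : ℝ => A * (16 * (X : ℝ)) ^ (2 * s) *
        ZV k X (s + 1) θ ^ 2) MeasureTheory.volume 0 1 :=
      (continuous_const.mul (hcZ.pow 2)).intervalIntegrable _ _
    rw [intervalIntegral.integral_add (continuous_const.intervalIntegrable _ _) hi,
      intervalIntegral.integral_const, intervalIntegral.integral_const_mul]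
    simp
  rw [hcalc] at hint
  have hZX := hZC X hX
  have hXp : (0 : ℝ) < X := by linarith
  have e1 : (X : ℝ) ^ (2 * s + 2) ≤ (X : ℝ) ^ (4 * (s : ℝ) + 4 - k + ε) := by
    rw [← Real.rpow_natCast (X : ℝ) (2 * s + 2)]
    refine Real.rpow_le_rpow_of_exponent_le hX1 ?_
    have : (k : ℝ) ≤ 2 * s + 2 := by exact_mod_cast hks
    push_cast
    linarith
  have e2 : (16 * (X : ℝ)) ^ (2 * s) * (X : ℝ) ^ (2 * ((s + 1 : ℕ) : ℝ) + 2 - k + ε) =
      16 ^ (2 * s) * (X : ℝ) ^ (4 * (s : ℝ) + 4 - k + ε) := by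
    rw [mul_pow, mul_assoc, ← Real.rpow_natCast (X : ℝ) (2 * s), ← Real.rpow_add hXp]
    congr 2
    push_cast
    ring
  have e3 : A * (16 * (X : ℝ)) ^ (2 * s) * ∫ θ in (0 : ℝ)..1, ZV k X (s + 1) θ ^ 2 ≤
      A * 16 ^ (2 * s) * C * (X : ℝ) ^ (4 * (s : ℝ) + 4 - k + ε) := by
    calc A * (16 * (X : ℝ)) ^ (2 * s) * ∫ θ in (0 : ℝ)..1, ZV k X (s + 1) θ ^ 2
        ≤ A * (16 * (X : ℝ)) ^ (2 * s) *
          (C * (X : ℝ) ^ (2 * ((s + 1 : ℕ) : ℝ) + 2 - k + ε)) :=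
          mul_le_mul_of_nonneg_left hZX (by positivity)
      _ = A * C * ((16 * (X : ℝ)) ^ (2 * s) *
          (X : ℝ) ^ (2 * ((s + 1 : ℕ) : ℝ) + 2 - k + ε)) := by ring
      _ = A * 16 ^ (2 * s) * C * (X : ℝ) ^ (4 * (s : ℝ) + 4 - k + ε) := by
          rw [e2]
          ring
  have e4 := mul_le_mul_of_nonneg_left e1 hA0.le
  calc ∫ θ in (0 : ℝ)..1, PP k X θ ^ (4 * s + 4)
      ≤ A * (X : ℝ) ^ (4 * (s : ℝ) + 4 - k + ε) +
        A * 16 ^ (2 * s) * C * (X : ℝ) ^ (4 * (s : ℝ) + 4 - k + ε) := by linarith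
    _ = _ := by ring

end Pool.Agent.H48.KS2
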