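import Pool.Agent.H85.KS2.Targets

/-! # MP_ff41bc_an: module SX (III.1) -/

set_option autoImplicit false
open Pool.Agent.H98.KS Pool.Agent.H85.KS2
namespace Pool.Agent.H48.KS2

theorem ee_add' (x y : ℝ) : ee (x + y) = ee x * ee y := by
  unfold ee
  rw [← Complex.exp_add]
  congr 1
  push_cast
  ring

theorem ee_norm' (x : ℝ) : ‖ee x‖ = 1 := by
  unfold ee
  have h : (2 * Real.pi * x * Complex.I : ℂ) = ((2 * Real.pi * x : ℝ) : ℂ) * Complex.I := by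
    push_cast
    ring
  rw [h, Complex.norm_exp_ofReal_mul_I]

theorem ee_conj' (x : ℝ) : (starRingEnd ℂ) (ee x) = ee (-x) := by
  unfold ee
  rw [← Complex.exp_conj]
  have h : ∀ y : ℝ, (2 * Real.pi * y * Complex.I : ℂ) = ((2 * Real.pi * y : ℝ) : ℂ) * Complex.I := by
    intro y
    push_cast
    ring
  rw [h, h, map_mul, Complex.conj_ofReal, Complex.conj_I]
  congr 1
  push_cast
  ring

/-- the square of a sum over an interval, ordered by differences -/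
theorem sq_sum (X : ℕ) (g : ℤ → ℂ) :
    ((‖∑ n ∈ Finset.Icc (1 : ℤ) X, g n‖ ^ 2 : ℝ) : ℂ) = ∑ h ∈ JJ X,
      ∑ m ∈ (Finset.Icc (1 : ℤ) X).filter (fun m => m + h ∈ Finset.Icc (1 : ℤ) X),
        g (m + h) * (starRingEnd ℂ) (g m) := by
  obtain ⟨T, hT⟩ : ∃ T, T = Finset.Icc (1 : ℤ) X := ⟨_, rfl⟩
  rw [← hT]
  have h1 : ((‖∑ n ∈ T, g n‖ ^ 2 : ℝ) : ℂ) =
      ∑ p ∈ T ×ˢ T, g p.1 * (starRingEnd ℂ) (g p.2) := by
    rw [Finset.sum_product, ← Complex.normSq_eq_norm_sq, Complex.normSq_eq_conj_mul_self,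
      map_sum, mul_comm, Finset.sum_mul_sum]
  have h2 : ∑ h ∈ JJ X, ∑ m ∈ T.filter (fun m => m + h ∈ T), g (m + h) * (starRingEnd ℂ) (g m) =
      ∑ q ∈ (JJ X ×ˢ T).filter (fun q => q.2 + q.1 ∈ T),
        g (q.2 + q.1) * (starRingEnd ℂ) (g q.2) := by
    rw [Finset.sum_filter, Finset.sum_product]
    exact Finset.sum_congr rfl fun h _ => Finset.sum_filter _ _
  rw [h1, h2]
  refine Finset.sum_nbij' (fun p => (p.1 - p.2, p.2)) (fun q => (q.2 + q.1, q.2)) ?_ ?_ ?_ ?_ ?_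
  · intro p hp
    rw [Finset.mem_product, hT, Finset.mem_Icc, Finset.mem_Icc] at hp
    simp only [Finset.mem_filter, Finset.mem_product, JJ, hT, Finset.mem_Icc]
    omega
  · intro q hq
    simp only [Finset.mem_filter, Finset.mem_product] at hq
    rw [Finset.mem_product]
    exact ⟨hq.2, hq.1.2⟩
  · intro p _
    ext <;> simp
  · intro q _
    ext <;> simp
  · intro p _
    simp

theorem Hs_sq (hV1 : T_V1) (k X : ℕ) (θ ξ : ℝ) (hX : 1 ≤ X) :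
    ‖Hs k X θ ξ‖ ≤ Real.sqrt (X + ZV k X 1 θ) := by
  have hH : Hs k X θ ξ = ∑ n ∈ Finset.Icc (1 : ℤ) X, ee (θ * (n : ℝ) ^ k - n * ξ) := by
    unfold Hs
    refine Finset.sum_nbij' (fun n : ℕ => (n : ℤ)) (fun n : ℤ => n.toNat) ?_ ?_ ?_ ?_ ?_
    · intro n hn
      rw [Finset.mem_Icc] at hn ⊢
      omega
    · intro n hn
      rw [Finset.mem_Icc] at hn ⊢
      omega
    · intro n _
      simp
    · intro n hn
      rw [Finset.mem_Icc] at hn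
      rw [Int.toNat_of_nonneg (by omega)]
    · intro n _
      simp
  refine Real.le_sqrt_of_sq_le ?_
  have h1 := sq_sum X (fun n => ee (θ * (n : ℝ) ^ k - n * ξ))
  rw [← hH] at h1
  have h2 : ‖Hs k X θ ξ‖ ^ 2 = ‖((‖Hs k X θ ξ‖ ^ 2 : ℝ) : ℂ)‖ := by
    rw [Complex.norm_real, Real.norm_eq_abs, abs_of_nonneg (by positivity)]
  rw [h2, h1]
  obtain ⟨F, hF⟩ : ∃ F : ℤ → ℂ, F = fun h =>
      ∑ m ∈ (Finset.Icc (1 : ℤ) X).filter (fun m => m + h ∈ Finset.Icc (1 : ℤ) X),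
        ee (θ * ((m + h : ℤ) : ℝ) ^ k - ((m + h : ℤ) : ℝ) * ξ) *
          (starRingEnd ℂ) (ee (θ * (m : ℝ) ^ k - m * ξ)) := ⟨_, rfl⟩
  have hterm : ∀ h m : ℤ, ee (θ * ((m + h : ℤ) : ℝ) ^ k - ((m + h : ℤ) : ℝ) * ξ) *
      (starRingEnd ℂ) (ee (θ * (m : ℝ) ^ k - m * ξ)) =
      ee (-(h * ξ)) * ee (θ * (dl k h m : ℝ)) := by
    intro h m
    rw [ee_conj', ← ee_add', ← ee_add']
    congr 1
    unfold dl
    push_cast
    ring
  have hF0 : ‖F 0‖ ≤ X := by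
    rw [hF]
    beta_reduce
    refine (norm_sum_le _ _).trans ?_
    have h3 : ∀ m ∈ (Finset.Icc (1 : ℤ) X).filter (fun m => m + 0 ∈ Finset.Icc (1 : ℤ) X),
        ‖ee (θ * ((m + 0 : ℤ) : ℝ) ^ k - ((m + 0 : ℤ) : ℝ) * ξ) *
          (starRingEnd ℂ) (ee (θ * (m : ℝ) ^ k - m * ξ))‖ = 1 := by
      intro m _
      rw [norm_mul, ee_norm', RCLike.norm_conj, ee_norm', mul_one]
    rw [Finset.sum_congr rfl h3, Finset.sum_const, nsmul_eq_mul, mul_one]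
    have h4 := Finset.card_filter_le (Finset.Icc (1 : ℤ) X)
      (fun m => m + 0 ∈ Finset.Icc (1 : ℤ) X)
    rw [Int.card_Icc] at h4
    have h5 : ((X : ℤ) + 1 - 1).toNat = X := by omega
    rw [h5] at h4
    exact_mod_cast h4
  have hFh : ∀ h ∈ HH X, ‖F h‖ ≤ VV k X θ h := by
    intro h _
    rw [hF]
    beta_reduce
    rw [Finset.sum_congr rfl fun m _ => hterm h m, ← Finset.mul_sum, norm_mul, ee_norm', one_mul]
    have h3 : (Finset.Icc (1 : ℤ) X).filter (fun m => m + h ∈ Finset.Icc (1 : ℤ) X) =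
        Finset.Ico (max 1 (1 - h)) (min (X : ℤ) (X - h) + 1) := by
      ext m
      simp only [Finset.mem_filter, Finset.mem_Icc, Finset.mem_Ico]
      omega
    rw [h3]
    exact hV1 k X θ h _ _ hX (by omega) (by omega)
  have hsum : ∑ h ∈ JJ X, F h = F 0 + ∑ h ∈ HH X, F h := by
    unfold HH
    rw [Finset.add_sum_erase]
    unfold JJ
    simp
  have h6 : ∑ h ∈ JJ X, ∑ m ∈ (Finset.Icc (1 : ℤ) X).filter
      (fun m => m + h ∈ Finset.Icc (1 : ℤ) X),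
        (fun n : ℤ => ee (θ * (n : ℝ) ^ k - n * ξ)) (m + h) *
          (starRingEnd ℂ) ((fun n : ℤ => ee (θ * (n : ℝ) ^ k - n * ξ)) m) =
      ∑ h ∈ JJ X, F h := by
    rw [hF]
  rw [h6, hsum]
  refine (norm_add_le _ _).trans (add_le_add hF0 ?_)
  unfold ZV
  simp only [pow_one]
  exact norm_sum_le_of_le _ hFh

theorem ks2_SX (hSH : T_SH) (hV1 : T_V1) (_hV2 : T_V2) : T_SX := by
  intro k X θ ξ hk hX
  rw [hSH k X θ ξ hk]
  have h1 := Hs_sq hV1 k X θ ξ hX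
  have h2 := Hs_sq hV1 k X θ (-ξ) hX
  have h3 : ‖(1 : ℂ) + Hs k X θ ξ + Hs k X θ (-ξ)‖ ≤
      ‖(1 : ℂ)‖ + ‖Hs k X θ ξ‖ + ‖Hs k X θ (-ξ)‖ := norm_add₃_le
  rw [norm_one] at h3
  unfold PP
  linarith

end Pool.Agent.H48.KS2
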